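import Pool.Agent.R244.LZ.Asm4
import Pool.Agent.R244.LZ.Five
import Pool.Agent.R244.LZ.Six
import Pool.Agent.R244.LZ.LZ2
import Pool.Agent.R244.LZ.P4
import Pool.Agent.R244.LZ.P7
import Pool.Agent.R244.LZ.P8
import Pool.Agent.R793.LZ.Cascade
import Pool.Agent.R928.LZ.H

/-!
# MP_8f79a4_an, Q1: complete answer

Critical Lorentz sharpness for the Fourier decay of Riesz potentials of measures in
`M_b ∩ Ḃ^{β-d}_{∞,∞}`: the Lorentz quasi-norms `L^{p,q}`, `p = 2d/(2α+β)`, of the Fourier transforms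
of the Riesz potentials are unbounded for every `q < ∞` if `β < d`, and for `q < 2` if `β = d`; they
are bounded if `β = d` and `q ≥ 2`.
-/

set_option autoImplicit false

open MeasureTheory Filter Topology Pool.Agent.R244.LZ
open scoped Real ENNReal

namespace Pool.Agent.Results.MP_8f79a4_an.LorentzSharpness

/-- For `0 < β ≤ d`, `(d-β)/2 < α < d - β/2`, `1 ≤ q < ∞` and `p = 2d/(2α+β)`: if `β < d` or `q < 2`
there is a sequence of finite signed measures, bounded in `M_b ∩ Ḃ^{β-d}_{∞,∞}`, for which the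
`L^{p,q}` quasi-norms of the Fourier transforms of the Riesz potentials of order `α` tend to `∞`;
if `β = d` and `q ≥ 2` there is a constant that bounds these quasi-norms on the unit ball. -/
theorem result (d : ℕ) (hd : 0 < d) (β α q : ℝ) (hβ : 0 < β) (hβd : β ≤ d)
    (hα : ((d : ℝ) - β) / 2 < α) (_hα' : α < d - β / 2) (hq : 1 ≤ q) :
    ((β < d ∨ q < 2) →
      ∃ (C : ℝ) (Φ : ℕ → SignedMeasure (E d)), (∀ N, Bound β C (Φ N)) ∧
        Tendsto (fun N => lor (2 * d / (2 * α + β)) q (ftRiesz α (Φ N))) atTop (𝓝 ⊤)) ∧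
    (β = d → 2 ≤ q →
      ∃ C : ℝ, ∀ μ : SignedMeasure (E d), Bound β 1 μ →
        lor (2 * d / (2 * α + β)) q (ftRiesz α μ) ≤ ENNReal.ofReal C) := by
  have : NeZero d := ⟨hd.ne'⟩
  have hα0 : 0 < α := by
    have : 0 ≤ ((d : ℝ) - β) / 2 := by linarith
    linarith
  have hq0 : 0 < q := by linarith
  have h1 : Stm1 := Pool.Agent.R793.LZ.stm1
  have hH : StmH := Pool.Agent.R928.LZ.stmH stm4
  refine ⟨?_, ?_⟩
  · intro h
    rcases lt_or_eq_of_le hβd with hlt | heq
    · exact Asm.caseI h1 stm2 stm4 hH stm5 stm8 d β α q hβ hlt hα0 hq0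
    · subst heq
      have hq2 : q < 2 := by
        rcases h with h | h
        · exact absurd h (lt_irrefl _)
        · exact h
      exact Asm.caseII h1 stm2 stm4 hH stm5 stm8 d α q hα0 hq0 hq2
  · intro heq hq2
    subst heq
    obtain ⟨C, _, hC⟩ := stm6 d α q hα0 hq2
    refine ⟨C, fun μ hμ => ?_⟩
    obtain ⟨hc, he⟩ := stm7 d μ hμ
    exact hC (ft μ) hc he

end Pool.Agent.Results.MP_8f79a4_an.LorentzSharpness
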